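import Pool.Agent.Lib.MP_eee7a8_ag.TB.H69.CutLem

/-!
# TAGBR Part B: BDD
-/

open Matrix

namespace Pool.Agent.Lib.MP_eee7a8_ag.TB.PB.H69

theorem res_orbit {f₀ : QF} {G : Subgroup SLZ} (h : ∀ g ∈ G, 0 ≤ f₀.res (f₀.act g)) {g g' : SLZ}
    (hg : g ∈ G) (hg' : g' ∈ G) : 0 ≤ (f₀.act g).res (f₀.act g') := by
  have h1 := h (g⁻¹ * g') (G.mul_mem (G.inv_mem hg) hg')
  rw [← res_act g, ← act_mul, mul_inv_cancel_left] at h1
  exact h1

/-- BDD. -/
theorem bdd (hPOS : POS_S) (hDENSE : DENSE_S) (hCUT : CUT_S) (hNOCR : NOCR_S) : BDD_S := by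
  classical
  intro G S h hS hh ht
  obtain ⟨F, hF, horb⟩ := hS.orb
  have hp := (hPOS h ht).1
  -- the bound for one orbit
  have key : ∀ f₀ ∈ F, ∃ M : ℝ, 0 ≤ M ∧ ∀ g ∈ G, f₀.act g ∈ S → (sideF h).res (f₀.act g) < 0 →
      ∃ σ p q, Cut h (f₀.act g) σ p q ∧ |q - p| ≤ M := by
    intro f₀ hf₀
    by_cases hex : ∃ g ∈ G, f₀.act g ∈ S ∧ (sideF h).res (f₀.act g) < 0
    · obtain ⟨g, hg, hgS, hgr⟩ := hex
      obtain ⟨σ, p, q, hc⟩ := hCUT h (f₀.act g) ht (hS.pos _ hgS) hgr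
      refine ⟨|q - p| + 1, by positivity, ?_⟩
      intro g' hg' hg'S hg'r
      obtain ⟨σ', p', q', hc'⟩ := hCUT h (f₀.act g') ht (hS.pos _ hg'S) hg'r
      refine ⟨σ', p', q', hc', ?_⟩
      have h1 : |(q' - q) - (p' - p)| ≤ 1 := by
        apply abs_sub_le_one_of_int
        intro i
        have hi : h ^ i ∈ G := G.zpow_mem hh i
        have h2 := cut_shift hp hc i
        have h3 : 0 < ((f₀.act g).act (h ^ i)).disc := by
          rw [disc_act]; exact hS.pos _ hgS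
        have h4 : 0 ≤ ((f₀.act g).act (h ^ i)).res (f₀.act g') := by
          rw [← act_mul]
          exact res_orbit (hF f₀ hf₀) (G.mul_mem hi hg) hg'
        have h5 := cut_order' hDENSE hNOCR ht h3 (hS.pos _ hg'S) h4 h2 hc'
        have h6 : (p' - p - i) * (q' - q - i) = (p' - (p + i)) * (q' - (q + i)) := by ring
        rw [h6]; exact h5
      have h2 : q' - p' = (q - p) + ((q' - q) - (p' - p)) := by ring
      rw [h2]
      exact (abs_add_le _ _).trans (by linarith)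
    · push Not at hex
      refine ⟨0, le_refl _, fun g hg h1 h2 => absurd h2 (not_lt.2 (hex g hg h1))⟩
  choose! M hM0 hM using key
  refine ⟨∑ f ∈ F, M f, ?_⟩
  intro f hf hr
  obtain ⟨f₀, hf₀, g, hg, rfl⟩ := horb f hf
  obtain ⟨σ, p, q, hc, hb⟩ := hM f₀ hf₀ g hg hf hr
  exact ⟨σ, p, q, hc, hb.trans (Finset.single_le_sum (f := M) (fun i hi => hM0 i hi) hf₀)⟩

end Pool.Agent.Lib.MP_eee7a8_ag.TB.PB.H69
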