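import Pool.Agent.Lib.MP_eee7a8_ag.TB.H69.CutLem

/-!
# TAGBR Part B: GROW
-/

open Matrix

namespace Pool.Agent.Lib.MP_eee7a8_ag.TB.PB.H69

theorem arith_lin {c : ℕ → ℤ} (h : ∀ m, c (m + 1) + c (m + 1) = c m + c (m + 2)) (m : ℕ) :
    c (m + 1) - c m = c 1 - c 0 := by
  induction m with
  | zero => rfl
  | succ m ih => have := h m; linarith

theorem arith_lin' {c : ℕ → ℤ} (h : ∀ m, c (m + 1) + c (m + 1) = c m + c (m + 2)) (m : ℕ) :
    c m = c 0 + m * (c 1 - c 0) := by
  induction m with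
  | zero => simp
  | succ m ih => have := arith_lin h m; push_cast; linarith

theorem arith_grow {c : ℕ → ℤ} (h0 : ∀ m, 0 ≤ c m)
    (h : ∀ m, c (m + 1) + c (m + 1) = c m + c (m + 2)) :
    0 ≤ c 1 - c 0 ∧ ((∀ K : ℕ, ∃ m, (K : ℤ) ≤ c m) → 1 ≤ c 1 - c 0) := by
  have hl := arith_lin' h
  have hnn : 0 ≤ c 1 - c 0 := by
    by_contra hneg
    push Not at hneg
    have h1 := hl (c 0).natAbs.succ
    have h2 := h0 (c 0).natAbs.succ
    have h3 := h0 0
    have h4 : ((c 0).natAbs.succ : ℤ) = c 0 + 1 := by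
      push_cast
      rw [abs_of_nonneg h3]
    rw [h1, h4] at h2
    have h5 : c 1 - c 0 ≤ -1 := by omega
    have h6 : (c 0 + 1) * (c 1 - c 0) ≤ (c 0 + 1) * (-1) :=
      mul_le_mul_of_nonneg_left h5 (by omega)
    linarith
  refine ⟨hnn, fun hK => ?_⟩
  by_contra hlt
  have h1 : c 1 - c 0 = 0 := by omega
  obtain ⟨m, hm⟩ := hK ((c 0).natAbs + 1)
  rw [hl m, h1, mul_zero, add_zero] at hm
  push_cast at hm
  rw [abs_of_nonneg (h0 0)] at hm
  omega

/-- A strand which crosses the axis of `h` meets the pair `u w` if there is enough room. -/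
theorem cut_meets {h : SLZ} {f : QF} {σ : ℤ} {p q : ℝ} (hc : Cut h f σ p q)
    {r : Cusp → Cusp → Prop} (hr : RelOK h r) {u w : Cusp} (hu : side h u < 0) (hw : 0 < side h w)
    (hroom : (pos h u + 1 < p ∧ q < pos h w - 1) ∨ (p < pos h u - 1 ∧ pos h w + 1 < q)) :
    f.Meets r u w := by
  constructor
  · rcases hroom with ⟨a, b⟩ | ⟨a, b⟩
    · have h1 := ((hc.2.1 u hu).2).2 (by linarith)
      have h2 := ((hc.2.2 w hw).1).2 (by linarith)
      rcases hc.1 with rfl | rfl
      · exact mul_neg_of_neg_of_pos (by linarith) (by linarith)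
      · exact mul_neg_of_pos_of_neg (by linarith) (by linarith)
    · have h1 := ((hc.2.1 u hu).1).2 (by linarith)
      have h2 := ((hc.2.2 w hw).2).2 (by linarith)
      rcases hc.1 with rfl | rfl
      · exact mul_neg_of_pos_of_neg (by linarith) (by linarith)
      · exact mul_neg_of_neg_of_pos (by linarith) (by linarith)
  · intro z hz
    constructor
    · intro hzu
      have h1 := hr.1 z u hzu
      have h2 := abs_le.1 (hr.2 z u hzu)
      have hzN : side h z < 0 := by
        by_contra hge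
        push Not at hge
        have := mul_nonpos_of_nonneg_of_nonpos hge hu.le
        omega
      have h3 := hc.2.1 z hzN
      rw [hz, mul_zero] at h3
      have h4 : ¬ p < pos h z := fun hh => lt_irrefl _ (h3.1.2 hh)
      have h5 : ¬ pos h z < p := fun hh => lt_irrefl _ (h3.2.2 hh)
      rcases hroom with ⟨a, b⟩ | ⟨a, b⟩
      · exact h5 (by linarith)
      · exact h4 (by linarith)
    · intro hzw
      have h1 := hr.1 z w hzw
      have h2 := abs_le.1 (hr.2 z w hzw)
      have hzP : 0 < side h z := by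
        by_contra hge
        push Not at hge
        have := mul_nonpos_of_nonpos_of_nonneg hge hw.le
        omega
      have h3 := hc.2.2 z hzP
      rw [hz, mul_zero] at h3
      have h4 : ¬ q < pos h z := fun hh => lt_irrefl _ (h3.1.2 hh)
      have h5 : ¬ pos h z < q := fun hh => lt_irrefl _ (h3.2.2 hh)
      rcases hroom with ⟨a, b⟩ | ⟨a, b⟩
      · exact h4 (by linarith)
      · exact h5 (by linarith)

/-- Lower bound for the crossing number. -/
theorem le_XX (hDENSE : DENSE_S) (hFIN : FIN_S) {G : Subgroup SLZ} {S : Set QF} (hS : SFam G S)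
    {h : SLZ} (hh : h ∈ G) (ht : 2 < h.1.trace) (hp : ∀ v, pos h (h • v) = pos h v + 1)
    {f : QF} (hf : f ∈ S) {σ : ℤ} {p q : ℝ}
    (hc : Cut h f σ p q) {r : Cusp → Cusp → Prop} (hr : RelOK h r) {u w : Cusp}
    (hu : side h u < 0) (hw : 0 < side h w) (a : ℤ) (K : ℕ)
    (hroom : ∀ i : ℕ, i < K → (pos h u + 1 < p + ((a + i : ℤ) : ℝ) ∧
      q + ((a + i : ℤ) : ℝ) < pos h w - 1) ∨
      (p + ((a + i : ℤ) : ℝ) < pos h u - 1 ∧ pos h w + 1 < q + ((a + i : ℤ) : ℝ))) :
    (K : ℤ) ≤ XX S r u w := by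
  classical
  unfold XX
  have hfin : {f | f ∈ S ∧ f.Meets r u w}.Finite :=
    (hFIN G S hS u w).subset (fun f hf => ⟨hf.1, hf.2.1⟩)
  have hinj : Function.Injective (fun i : ℕ => f.act (h ^ (a + i : ℤ))) := by
    intro i j hij
    have h1 := cut_shift hp hc (a + i : ℤ)
    have h2 := cut_shift hp hc (a + j : ℤ)
    have hij' : f.act (h ^ (a + i : ℤ)) = f.act (h ^ (a + j : ℤ)) := hij
    rw [hij'] at h1
    have h3 := cut_unique hDENSE ht h1 h2
    have h4 : ((a + i : ℤ) : ℝ) = ((a + j : ℤ) : ℝ) := by linarith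
    have h5 : (a + i : ℤ) = (a + j : ℤ) := by exact_mod_cast h4
    omega
  have hsub : ((Finset.range K).image (fun i : ℕ => f.act (h ^ (a + i : ℤ))) : Set QF) ⊆
      {f | f ∈ S ∧ f.Meets r u w} := by
    intro f' hf'
    rw [Finset.mem_coe, Finset.mem_image] at hf'
    obtain ⟨i, hi, rfl⟩ := hf'
    rw [Finset.mem_range] at hi
    exact ⟨hS.inv _ (G.zpow_mem hh _) _ hf, cut_meets (cut_shift hp hc _) hr hu hw (hroom i hi)⟩
  have h1 := Set.ncard_le_ncard hsub hfin
  rw [Set.ncard_coe_finset, Finset.card_image_of_injective _ hinj, Finset.card_range] at h1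
  exact_mod_cast h1

/-- GROW. -/
theorem grow (hPOS : POS_S) (hDENSE : DENSE_S) (hFIN : FIN_S) (hXINV : XINV_S)
    (hFPFAR : FPFAR_S) : GROW_S := by
  intro G S r h M hS hri hh ht hB hr u v hu hv
  have hp := (hPOS h ht).1
  have hX0 : ∀ x y, 0 ≤ XX S r x y := fun x y => Int.natCast_nonneg _
  obtain ⟨hsymm, hinv⟩ := hXINV G S r hS hri
  have hpn : ∀ (n : ℕ) (x : Cusp), pos h (h ^ n • x) = pos h x + n := pos_npow hp
  have hpi : ∀ x : Cusp, pos h (h⁻¹ • x) = pos h x - 1 := by
    intro x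
    have := hp (h⁻¹ • x)
    rw [← mul_smul', mul_inv_cancel, one_smul'] at this
    linarith
  have hsi : ∀ x : Cusp, side h (h⁻¹ • x) = side h x := by
    intro x
    have := side_smul_self h (h⁻¹ • x)
    rw [← mul_smul', mul_inv_cancel, one_smul'] at this
    exact this.symm
  have hsh : ∀ x y, XX S r (h⁻¹ • x) y = XX S r x (h • y) := by
    intro x y
    rw [← hinv h hh (h⁻¹ • x) y, ← mul_smul', mul_inv_cancel, one_smul']
  have hsh' : ∀ x y, XX S r (h • x) y = XX S r x (h⁻¹ • y) := by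
    intro x y
    rw [← hinv h hh x (h⁻¹ • y), ← mul_smul' h h⁻¹ y, mul_inv_cancel, one_smul']
  constructor
  · intro hfar
    have hrec : ∀ m : ℕ, XX S r u (h ^ (m + 1) • v) + XX S r u (h ^ (m + 1) • v) =
        XX S r u (h ^ m • v) + XX S r u (h ^ (m + 2) • v) := by
      intro m
      have hm : (0 : ℝ) ≤ m := Nat.cast_nonneg m
      have h1 := hFPFAR G S r h M hS ht hB hr u (h⁻¹ • u) (h ^ m • v) (h ^ (m + 1) • v) hu
        (by rw [hsi]; exact hu) (by rw [side_npow]; exact hv) (by rw [side_npow]; exact hv)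
        (Or.inl (by
          rw [hpn, hpn, hpi]
          push_cast
          refine ⟨?_, ?_, ?_, ?_⟩ <;> linarith))
      rw [hsh, hsh, ← mul_smul' h (h ^ m) v, ← mul_smul' h (h ^ (m + 1)) v, ← pow_succ',
        ← pow_succ'] at h1
      exact h1
    have hg := arith_grow (c := fun m => XX S r u (h ^ m • v)) (fun m => hX0 _ _) hrec
    simp only [pow_zero, one_smul', pow_one] at hg
    refine ⟨hg.1, fun ⟨f, hf, hfr⟩ => hg.2 fun K => ?_⟩
    obtain ⟨σ, p, q, hc, -⟩ := hB f hf hfr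
    obtain ⟨a, ha⟩ := exists_int_gt (pos h u + 1 - p)
    obtain ⟨m, hm⟩ := exists_nat_gt (q + a + K + 1 - pos h v)
    refine ⟨m, le_XX hDENSE hFIN hS hh ht hp hf hc hr hu (by rw [side_npow]; exact hv) a K ?_⟩
    intro i hi
    left
    rw [hpn]
    have hi0 : (0 : ℝ) ≤ i := Nat.cast_nonneg i
    have hi1 : (i : ℝ) ≤ K := by exact_mod_cast hi.le
    push_cast
    constructor <;> linarith
  · intro hfar
    have hpn' : ∀ (n : ℕ) (x : Cusp), pos h (h⁻¹ ^ n • x) = pos h x - n := by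
      intro n x
      induction n with
      | zero => rw [pow_zero, one_smul']; simp
      | succ n ih => rw [pow_succ', mul_smul', hpi, ih]; push_cast; ring
    have hsn' : ∀ (n : ℕ) (x : Cusp), side h (h⁻¹ ^ n • x) = side h x := by
      intro n x
      induction n with
      | zero => rw [pow_zero, one_smul']
      | succ n ih => rw [pow_succ', mul_smul', hsi, ih]
    have hrec : ∀ m : ℕ, XX S r u (h⁻¹ ^ (m + 1) • h • v) + XX S r u (h⁻¹ ^ (m + 1) • h • v) =
        XX S r u (h⁻¹ ^ m • h • v) + XX S r u (h⁻¹ ^ (m + 2) • h • v) := by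
      intro m
      have hm : (0 : ℝ) ≤ m := Nat.cast_nonneg m
      have h1 := hFPFAR G S r h M hS ht hB hr u (h • u) (h⁻¹ ^ m • h • v)
        (h⁻¹ ^ (m + 1) • h • v) hu
        (by rw [side_smul_self]; exact hu) (by rw [hsn', side_smul_self]; exact hv)
        (by rw [hsn', side_smul_self]; exact hv)
        (Or.inr (by
          rw [hpn', hpn', hp, hp]
          push_cast
          refine ⟨?_, ?_, ?_, ?_⟩ <;> linarith))
      rw [hsh', hsh', ← mul_smul' h⁻¹ (h⁻¹ ^ m) (h • v), ← mul_smul' h⁻¹ (h⁻¹ ^ (m + 1)) (h • v),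
        ← pow_succ', ← pow_succ'] at h1
      exact h1
    have hg := arith_grow (c := fun m => XX S r u (h⁻¹ ^ m • h • v)) (fun m => hX0 _ _) hrec
    simp only [pow_zero, one_smul', pow_one] at hg
    rw [← mul_smul' h⁻¹ h v, inv_mul_cancel, one_smul'] at hg
    refine ⟨hg.1, fun ⟨f, hf, hfr⟩ => hg.2 fun K => ?_⟩
    obtain ⟨σ, p, q, hc, -⟩ := hB f hf hfr
    obtain ⟨a, ha⟩ := exists_int_lt (pos h u - 1 - p - K)
    obtain ⟨m, hm⟩ := exists_nat_gt (pos h v + 2 - q - a)
    refine ⟨m, le_XX hDENSE hFIN hS hh ht hp hf hc hr hu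
      (by rw [hsn', side_smul_self]; exact hv) a K ?_⟩
    intro i hi
    right
    rw [hpn', hp]
    have hi0 : (0 : ℝ) ≤ i := Nat.cast_nonneg i
    have hi1 : (i : ℝ) ≤ K := by exact_mod_cast hi.le
    push_cast
    constructor <;> linarith

end Pool.Agent.Lib.MP_eee7a8_ag.TB.PB.H69
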