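import Pool.Agent.Lib.MP_eee7a8_ag.TB.IfaceB

/-!
# TAGBR Part B: STOP
-/

open Matrix

namespace Pool.Agent.Lib.MP_eee7a8_ag.TB.PB.H69

/-! ## Homogeneous parts -/

theorem part_add {ι : Type} (w : (ι → ℤ) → ℤ) (d : ℤ) (f g : LP ι) :
    part w d (f + g) = part w d f + part w d g := by
  unfold part
  rw [AddMonoidAlgebra.coeff_add, Finsupp.filter_add, AddMonoidAlgebra.ofCoeff_add]

theorem part_single {ι : Type} (w : (ι → ℤ) → ℤ) (d : ℤ) (x : ι → ℤ) (c : ℕ) (h : w x = d) :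
    part w d (AddMonoidAlgebra.single x c) = AddMonoidAlgebra.single x c := by
  unfold part
  rw [AddMonoidAlgebra.coeff_single, Finsupp.filter_single_of_pos (fun m => w m = d) h,
    AddMonoidAlgebra.ofCoeff_single]

theorem part_eq_zero {ι : Type} (w : (ι → ℤ) → ℤ) (d : ℤ) (f : LP ι)
    (h : ∀ m ∈ f.coeff.support, w m < d) : part w d f = 0 := by
  classical
  unfold part
  rw [AddMonoidAlgebra.ofCoeff_eq_zero]
  ext m
  rw [Finsupp.filter_apply, Finsupp.zero_apply]
  split_ifs with hm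
  · by_contra hne
    exact absurd hm (ne_of_lt (h m (Finsupp.mem_support_iff.2 hne)))
  · rfl

theorem single_cancel {ι : Type} {F : LP ι} {x y : ι → ℤ}
    (h : F * AddMonoidAlgebra.single x 1 = AddMonoidAlgebra.single y 1) :
    F = AddMonoidAlgebra.single (y - x) 1 := by
  have h1 : F * AddMonoidAlgebra.single x 1 * AddMonoidAlgebra.single (-x) 1 =
      AddMonoidAlgebra.single y 1 * AddMonoidAlgebra.single (-x) 1 := by rw [h]
  rw [mul_assoc, AddMonoidAlgebra.single_mul_single, AddMonoidAlgebra.single_mul_single,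
    add_neg_cancel, mul_one, ← AddMonoidAlgebra.one_def, mul_one, ← sub_eq_add_neg] at h1
  exact h1

theorem pair_add' {ι : Type} [Fintype ι] (T : Fam ι) (X : Cusp → Cusp → ℤ) (m m' : ι → ℤ) :
    pair T (m + m') X = pair T m X + pair T m' X := by
  unfold pair
  rw [← Finset.sum_add_distrib]
  exact Finset.sum_congr rfl fun i _ => by rw [Pi.add_apply]; ring

theorem E_symm {G : Subgroup SLZ} {ι : Type} {T : Fam ι} {a b : Cusp} (h : T.E G a b) :
    T.E G b a := by
  obtain ⟨i, g, hg, h | h⟩ := h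
  · exact ⟨i, g, hg, Or.inr h⟩
  · exact ⟨i, g, hg, Or.inl h⟩

/-! ## The relation between the top parts -/

section
variable {G : Subgroup SLZ} {ι : Type} [Fintype ι] {T : Fam ι} {P : Cusp → Cusp → LP ι}
  {X : Cusp → Cusp → ℤ}

theorem top_cross (hTM : TOPMUL_S) (hP : IsPol G T P)
    (hdeg : ∀ x y, ∀ m ∈ (P x y).coeff.support, pair T m X ≤ X x y)
    {u u' v v' : Cusp} (hc : Cross u v' u' v)
    (heq : X u v' + X u' v = X u v + X u' v') (hlt : X u u' + X v v' < X u v + X u' v') :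
    part (fun m => pair T m X) (X u v') (P u v') * part (fun m => pair T m X) (X u' v) (P u' v) =
      part (fun m => pair T m X) (X u v) (P u v) *
        part (fun m => pair T m X) (X u' v') (P u' v') := by
  have hw : ∀ m m' : ι → ℤ, (fun m => pair T m X) (m + m') =
      (fun m => pair T m X) m + (fun m => pair T m X) m' := pair_add' T X
  have h1 := hTM ι inferInstance _ hw (P u v') (P u' v) (X u v') (X u' v) (hdeg _ _) (hdeg _ _)
  have h2 := hTM ι inferInstance _ hw (P u v) (P u' v') (X u v) (X u' v') (hdeg _ _) (hdeg _ _)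
  have h3 := hTM ι inferInstance _ hw (P u u') (P v v') (X u u') (X v v') (hdeg _ _) (hdeg _ _)
  rw [← h1.2, ← h2.2, hP.ptolemy u v' u' v hc, heq, part_add]
  have h4 : part (fun m => pair T m X) (X u v + X u' v') (P u u' * P v' v) = 0 := by
    rw [hP.symm v' v]
    exact part_eq_zero _ _ _ fun m hm => lt_of_le_of_lt (h3.1 m hm) hlt
  rw [h4, zero_add, hP.symm v' u']

end

section
variable {G : Subgroup SLZ} {κ ι : Type} [Finite κ] [Fintype ι] {Λ : LFam G κ} {T : Fam ι}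
  {P : Cusp → Cusp → LP ι}

theorem relInv_eq (G : Subgroup SLZ) : RelInv G Eq := by
  intro g _ x y
  constructor
  · intro h
    have : g⁻¹ • g • x = g⁻¹ • g • y := by rw [h]
    rwa [← mul_smul', ← mul_smul', inv_mul_cancel, one_smul', one_smul'] at this
  · rintro rfl; rfl

theorem top_rel (hPOS : POS_S) (hXINV : XINV_S) (hFP : FP_S) (hAXFAM : AXFAM_S) (hIOTA : IOTA_S)
    (hTM : TOPMUL_S) (hP : IsPol G T P) (j : κ)
    (hdeg : ∀ x y, ∀ m ∈ (P x y).coeff.support, pair T m (XX Λ.strands Eq) ≤ XX Λ.strands Eq x y)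
    {u u' v v' : Cusp} (hu : side (Λ.h j) u < 0) (hu' : side (Λ.h j) u' < 0)
    (hv : 0 < side (Λ.h j) v) (hv' : 0 < side (Λ.h j) v') :
    part (fun m => pair T m (XX Λ.strands Eq)) (XX Λ.strands Eq u v') (P u v') *
      part (fun m => pair T m (XX Λ.strands Eq)) (XX Λ.strands Eq u' v) (P u' v) =
    part (fun m => pair T m (XX Λ.strands Eq)) (XX Λ.strands Eq u v) (P u v) *
      part (fun m => pair T m (XX Λ.strands Eq)) (XX Λ.strands Eq u' v') (P u' v') := by
  by_cases huu : u = u'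
  · subst huu; rw [mul_comm]
  by_cases hvv : v = v'
  · subst hvv; rfl
  have ht := Λ.tr j
  obtain ⟨-, hP2, -, -, -, hP6, -⟩ := hPOS _ ht
  obtain ⟨hSF, hres, -⟩ := hAXFAM G κ inferInstance Λ
  have hk : Λ.h j ∈ Λ.KK := ⟨j, Λ.mem_self j⟩
  obtain ⟨hsymm, -⟩ := hXINV G Λ.strands Eq hSF.toSFam (relInv_eq G)
  have hself : ∀ z x : Cusp, z = x → 0 < side (Λ.h j) z * side (Λ.h j) x := by
    rintro z x rfl
    exact mul_self_pos.2 (LFam.side_ne hk z)
  have heq := hFP G Λ.strands Eq (Λ.h j) hSF.toSFam ht (hres _ hk) hself u u' v v' hu hu' hv hv'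
  have hlt1 := hIOTA G κ inferInstance Λ _ hk u u' v v' hu hu' hv hv'
  have huu' : pos (Λ.h j) u ≠ pos (Λ.h j) u' :=
    fun h => huu (hP6 _ _ (mul_pos_of_neg_of_neg hu hu') h)
  have hvv' : pos (Λ.h j) v ≠ pos (Λ.h j) v' := fun h => hvv (hP6 _ _ (mul_pos hv hv') h)
  by_cases hs : (pos (Λ.h j) u - pos (Λ.h j) u') * (pos (Λ.h j) v' - pos (Λ.h j) v) < 0
  · have hc := (hP2 u u' v' v hu hu' hv' hv).2 hs
    exact top_cross hTM hP hdeg hc heq hlt1
  · have hs' : (pos (Λ.h j) u - pos (Λ.h j) u') * (pos (Λ.h j) v - pos (Λ.h j) v') < 0 := by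
      have h1 : (pos (Λ.h j) u - pos (Λ.h j) u') * (pos (Λ.h j) v' - pos (Λ.h j) v) ≠ 0 :=
        mul_ne_zero (sub_ne_zero.2 huu') (sub_ne_zero.2 (Ne.symm hvv'))
      push Not at hs
      have h2 := lt_of_le_of_ne hs (Ne.symm h1)
      have h3 : (pos (Λ.h j) u - pos (Λ.h j) u') * (pos (Λ.h j) v - pos (Λ.h j) v') =
        -((pos (Λ.h j) u - pos (Λ.h j) u') * (pos (Λ.h j) v' - pos (Λ.h j) v)) := by ring
      rw [h3]; linarith
    have hc := (hP2 u u' v v' hu hu' hv hv').2 hs'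
    refine (top_cross hTM hP hdeg hc heq.symm ?_).symm
    rw [heq, hsymm v' v]; exact hlt1

/-- STOP. -/
theorem stop (hPOS : POS_S) (hXINV : XINV_S) (hFP : FP_S) (hAXFAM : AXFAM_S) (hDEL : DEL_S)
    (hIOTA : IOTA_S) (hTM : TOPMUL_S) : STOP_S := by
  intro G κ ι hκ hι Λ T P j m s hT hP hdeg' hsh k
  have hdeg : ∀ x y, ∀ m ∈ (P x y).coeff.support,
      pair T m (XX Λ.strands Eq) ≤ XX Λ.strands Eq x y := by
    intro x y m hm
    by_cases hxy : x = y
    · subst hxy
      rw [hP.self] at hm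
      simp at hm
    · exact hdeg' x y hxy m hm
  obtain ⟨hSF, -, -⟩ := hAXFAM G κ inferInstance Λ
  obtain ⟨hsymm, hinv⟩ := hXINV G Λ.strands Eq hSF.toSFam (relInv_eq G)
  obtain ⟨hd1, -, -, hd4⟩ := hDEL G ι hι T hT
  obtain ⟨α, β, hab, hinc⟩ := hsh
  have hedge : ∀ a b, T.E G a b → part (fun m => pair T m (XX Λ.strands Eq))
      (XX Λ.strands Eq a b) (P a b) = AddMonoidAlgebra.single (T.del G a b) 1 := by
    intro a b hE
    rw [hP.edge a b hE]
    exact part_single _ _ _ _ (hd4 _ hsymm hinv a b hE)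
  have hdelv : ∀ i, T.del G (s.u i) (s.v i) = α (s.v i) + β (s.u i) := by
    intro i
    rw [hd1, hab _ _ (E_symm (s.edge i)) (s.right i) (s.left i)]
  -- one step in either direction
  have hstep : ∀ i : ℤ, s.u (i + 1) = s.u i → ∀ a b : Cusp,
      (a = s.v i ∧ b = s.v (i + 1)) ∨ (a = s.v (i + 1) ∧ b = s.v i) →
      part (fun m => pair T m (XX Λ.strands Eq)) (XX Λ.strands Eq (s.u 0) a) (P (s.u 0) a) =
        AddMonoidAlgebra.single (β (s.u 0) + α a) 1 →
      part (fun m => pair T m (XX Λ.strands Eq)) (XX Λ.strands Eq (s.u 0) b) (P (s.u 0) b) =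
        AddMonoidAlgebra.single (β (s.u 0) + α b) 1 := by
    intro i hi a b hh ha
    have key : 0 < side (Λ.h j) a ∧ 0 < side (Λ.h j) b ∧ T.E G (s.u i) a ∧ T.E G (s.u i) b ∧
        T.del G (s.u i) a = α a + β (s.u i) ∧ T.del G (s.u i) b = α b + β (s.u i) := by
      have e1 := s.edge (i + 1)
      have e2 := hdelv (i + 1)
      rw [hi] at e1 e2
      rcases hh with ⟨rfl, rfl⟩ | ⟨rfl, rfl⟩
      · exact ⟨s.right _, s.right _, s.edge i, e1, hdelv i, e2⟩
      · exact ⟨s.right _, s.right _, e1, s.edge i, e2, hdelv i⟩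
    obtain ⟨ka, kb, ea, eb, da, db⟩ := key
    have h1 := top_rel hPOS hXINV hFP hAXFAM hIOTA hTM hP j hdeg (s.left 0) (s.left i) ka kb
    rw [hedge _ _ ea, hedge _ _ eb, ha, da, db, AddMonoidAlgebra.single_mul_single, mul_one] at h1
    have h2 := single_cancel h1
    rw [h2]
    congr 1
    abel
  have hmain : ∀ l : ℤ, part (fun m => pair T m (XX Λ.strands Eq))
      (XX Λ.strands Eq (s.u 0) (s.v l)) (P (s.u 0) (s.v l)) =
        AddMonoidAlgebra.single (β (s.u 0) + α (s.v l)) 1 := by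
    intro l
    induction l using Int.induction_on with
    | zero => rw [hedge _ _ (s.edge 0), hdelv 0, add_comm]
    | succ i ih =>
      rcases s.step i with ⟨h1, -⟩ | ⟨h1, -⟩
      · exact hstep i h1 _ _ (Or.inl ⟨rfl, rfl⟩) ih
      · rw [h1]; exact ih
    | pred i ih =>
      have h0 : -(i : ℤ) - 1 + 1 = -(i : ℤ) := by ring
      rcases s.step (-(i : ℤ) - 1) with ⟨h1, -⟩ | ⟨h1, -⟩
      · refine hstep _ h1 _ _ (Or.inr ⟨rfl, rfl⟩) ?_
        rw [h0]; exact ih
      · rw [h0] at h1; rw [← h1]; exact ih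
  have hper : ∀ k : ℤ, s.v (s.r * k) = Λ.h j ^ k • s.v 0 ∧ α (s.v (s.r * k)) = α (s.v 0) - k • m := by
    intro k
    induction k using Int.induction_on with
    | zero => simp
    | succ i ih =>
      obtain ⟨i1, i2⟩ := ih
      have e : (s.r : ℤ) * ((i : ℤ) + 1) = (s.r : ℤ) * i + s.r := by ring
      have e2 := (s.per ((s.r : ℤ) * i)).2
      have e3 := (hinc _ _ (E_symm (s.edge ((s.r : ℤ) * i))) (s.right _) (s.left _)).2
      rw [e, e2]
      constructor
      · rw [i1, ← mul_smul', ← _root_.zpow_one_add, add_comm]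
      · have e4 : α (Λ.h j • s.v ((s.r : ℤ) * i)) = α (s.v ((s.r : ℤ) * i)) - m := by
          rw [sub_eq_iff_eq_add] at e3
          rw [e3]; abel
        rw [e4, i2, add_smul, one_smul]; abel
    | pred i ih =>
      obtain ⟨i1, i2⟩ := ih
      have e : (s.r : ℤ) * (-(i : ℤ) - 1) + s.r = (s.r : ℤ) * (-(i : ℤ)) := by ring
      have e2 := (s.per ((s.r : ℤ) * (-(i : ℤ) - 1))).2
      have e3 := (hinc _ _ (E_symm (s.edge ((s.r : ℤ) * (-(i : ℤ) - 1)))) (s.right _)
        (s.left _)).2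
      rw [e] at e2
      rw [← e2] at e3
      constructor
      · have e5 : s.v ((s.r : ℤ) * (-(i : ℤ) - 1)) = (Λ.h j)⁻¹ • s.v ((s.r : ℤ) * (-(i : ℤ))) := by
          rw [e2, ← mul_smul', inv_mul_cancel, one_smul']
        rw [e5, i1, ← mul_smul']
        congr 1
        group
      · rw [i2, sub_eq_iff_eq_add] at e3
        have e4 : α (s.v ((s.r : ℤ) * (-(i : ℤ) - 1))) = α (s.v 0) - (-(i : ℤ)) • m + m := by
          rw [e3]; abel
        rw [e4, sub_smul, one_smul]; abel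
  have h1 := hmain (s.r * k)
  obtain ⟨h2, h3⟩ := hper k
  rw [h2] at h1 h3
  rw [h1, h3, hdelv 0]
  congr 1
  abel

end

end Pool.Agent.Lib.MP_eee7a8_ag.TB.PB.H69
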