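import Pool.Agent.Lib.MP_eee7a8_ag.TB.IfaceB

/-!
# TAGBR Part B: powers of `h` and cuts
-/

open Matrix

namespace Pool.Agent.Lib.MP_eee7a8_ag.TB.PB.H69

theorem side_npow (h : SLZ) (n : ℕ) (v : Cusp) : side h (h ^ n • v) = side h v := by
  induction n with
  | zero => rw [pow_zero, one_smul']
  | succ n ih => rw [pow_succ', mul_smul', side_smul_self, ih]

theorem side_zpow (h : SLZ) (n : ℤ) (v : Cusp) : side h (h ^ n • v) = side h v := by
  rcases Int.eq_nat_or_neg n with ⟨k, rfl | rfl⟩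
  · rw [zpow_natCast, side_npow]
  · have := side_npow h k (h ^ (-(k : ℤ)) • v)
    rw [← mul_smul', ← zpow_natCast, ← _root_.zpow_add, add_neg_cancel, zpow_zero, one_smul'] at this
    exact this.symm

theorem pos_npow {h : SLZ} (hp : ∀ v, pos h (h • v) = pos h v + 1) (n : ℕ) (v : Cusp) :
    pos h (h ^ n • v) = pos h v + n := by
  induction n with
  | zero => rw [pow_zero, one_smul']; simp
  | succ n ih => rw [pow_succ', mul_smul', hp, ih]; push_cast; ring

theorem pos_zpow {h : SLZ} (hp : ∀ v, pos h (h • v) = pos h v + 1) (n : ℤ) (v : Cusp) :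
    pos h (h ^ n • v) = pos h v + n := by
  rcases Int.eq_nat_or_neg n with ⟨k, rfl | rfl⟩
  · rw [zpow_natCast, pos_npow hp]; simp
  · have := pos_npow hp k (h ^ (-(k : ℤ)) • v)
    rw [← mul_smul', ← zpow_natCast, ← _root_.zpow_add, add_neg_cancel, zpow_zero, one_smul'] at this
    push_cast
    linarith

theorem ev_act' (g : SLZ) (f : QF) (v : Cusp) : (f.act g).ev v = f.ev (g⁻¹ • v) := by
  have := ev_act g f (g⁻¹ • v)
  rwa [← mul_smul', mul_inv_cancel, one_smul'] at this

theorem cut_shift {h : SLZ} (hp : ∀ v, pos h (h • v) = pos h v + 1) {f : QF} {σ : ℤ} {p q : ℝ}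
    (hc : Cut h f σ p q) (i : ℤ) : Cut h (f.act (h ^ i)) σ (p + i) (q + i) := by
  obtain ⟨h1, h2, h3⟩ := hc
  refine ⟨h1, fun u hu => ?_, fun v hv => ?_⟩
  · have e1 : pos h ((h ^ i)⁻¹ • u) = pos h u - i := by
      rw [← _root_.zpow_neg, pos_zpow hp]; push_cast; ring
    have e2 : side h ((h ^ i)⁻¹ • u) < 0 := by rw [← _root_.zpow_neg, side_zpow]; exact hu
    have := h2 _ e2
    rw [ev_act', this.1, this.2, e1]
    constructor
    · constructor <;> intro hh <;> linarith
    · constructor <;> intro hh <;> linarith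
  · have e1 : pos h ((h ^ i)⁻¹ • v) = pos h v - i := by
      rw [← _root_.zpow_neg, pos_zpow hp]; push_cast; ring
    have e2 : 0 < side h ((h ^ i)⁻¹ • v) := by rw [← _root_.zpow_neg, side_zpow]; exact hv
    have := h3 _ e2
    rw [ev_act', this.1, this.2, e1]
    constructor
    · constructor <;> intro hh <;> linarith
    · constructor <;> intro hh <;> linarith

theorem cut_unique (h0 : DENSE_S) {h : SLZ} (ht : 2 < h.1.trace) {f : QF} {σ : ℤ} {p q p' q' : ℝ}
    (hc : Cut h f σ p q) (hc' : Cut h f σ p' q') : p = p' := by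
  by_contra hne
  rcases lt_or_gt_of_ne hne with hlt | hlt
  · obtain ⟨⟨u, hu, h1, h2⟩, -⟩ := h0 h ht p p' hlt
    have a1 := ((hc.2.1 u hu).1).2 h1
    have a2 := ((hc'.2.1 u hu).2).2 h2
    exact absurd (a1.trans a2) (lt_irrefl _)
  · obtain ⟨⟨u, hu, h1, h2⟩, -⟩ := h0 h ht p' p hlt
    have a1 := ((hc'.2.1 u hu).1).2 h1
    have a2 := ((hc.2.1 u hu).2).2 h2
    exact absurd (a1.trans a2) (lt_irrefl _)

/-- Two non crossing strands which cross the axis of `h` do so in the same order. -/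
theorem cut_order (h0 : DENSE_S) (h1 : NOCR_S) {h : SLZ} (ht : 2 < h.1.trace) {f f' : QF}
    (hd : 0 < f.disc) (hd' : 0 < f'.disc) (hr : 0 ≤ f.res f') {σ σ' : ℤ} {p q p' q' : ℝ}
    (hc : Cut h f σ p q) (hc' : Cut h f' σ' p' q') (hp : p < p') (hq : q' < q) : False := by
  obtain ⟨⟨u1, hu1, -, a1⟩, -⟩ := h0 h ht (p - 1) p (by linarith)
  obtain ⟨⟨u2, hu2, b1, b2⟩, -⟩ := h0 h ht p p' hp
  obtain ⟨⟨u3, hu3, c1, -⟩, -⟩ := h0 h ht p' (p' + 1) (by linarith)
  obtain ⟨-, v, hv, d1, d2⟩ := h0 h ht q' q hq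
  have x1 := ((hc.2.1 u1 hu1).2).2 a1
  have y1 := ((hc'.2.1 u1 hu1).2).2 (a1.trans hp)
  have x2 := ((hc.2.1 u2 hu2).1).2 b1
  have y2 := ((hc'.2.1 u2 hu2).2).2 b2
  have x3 := ((hc.2.1 u3 hu3).1).2 (hp.trans c1)
  have y3 := ((hc'.2.1 u3 hu3).1).2 c1
  have x4 := ((hc.2.2 v hv).2).2 d2
  have y4 := ((hc'.2.2 v hv).1).2 d1
  have hn := h1 f f' hd hd' hr
  rcases hc.1 with rfl | rfl <;> rcases hc'.1 with rfl | rfl
  · rcases hn with hn | hn | hn | hn
    · have := hn v (by linarith); linarith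
    · have := hn u2 (by linarith); linarith
    · have := hn u1 (by linarith); linarith
    · have := hn u3 (by linarith); linarith
  · rcases hn with hn | hn | hn | hn
    · have := hn u1 (by linarith); linarith
    · have := hn u3 (by linarith); linarith
    · have := hn v (by linarith); linarith
    · have := hn u2 (by linarith); linarith
  · rcases hn with hn | hn | hn | hn
    · have := hn u3 (by linarith); linarith
    · have := hn u1 (by linarith); linarith
    · have := hn u2 (by linarith); linarith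
    · have := hn v (by linarith); linarith
  · rcases hn with hn | hn | hn | hn
    · have := hn u2 (by linarith); linarith
    · have := hn v (by linarith); linarith
    · have := hn u3 (by linarith); linarith
    · have := hn u1 (by linarith); linarith

theorem cut_order' (h0 : DENSE_S) (h1 : NOCR_S) {h : SLZ} (ht : 2 < h.1.trace) {f f' : QF}
    (hd : 0 < f.disc) (hd' : 0 < f'.disc) (hr : 0 ≤ f.res f') {σ σ' : ℤ} {p q p' q' : ℝ}
    (hc : Cut h f σ p q) (hc' : Cut h f' σ' p' q') : 0 ≤ (p' - p) * (q' - q) := by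
  by_contra hneg
  push Not at hneg
  rcases mul_neg_iff.1 hneg with ⟨a, b⟩ | ⟨a, b⟩
  · exact cut_order h0 h1 ht hd hd' hr hc hc' (by linarith) (by linarith)
  · exact cut_order h0 h1 ht hd' hd (by rw [res_symm]; exact hr) hc' hc (by linarith)
      (by linarith)

theorem abs_sub_le_one_of_int {a b : ℝ} (h : ∀ i : ℤ, 0 ≤ (a - i) * (b - i)) : |b - a| ≤ 1 := by
  rw [abs_le]
  constructor
  · by_contra hlt
    push Not at hlt
    have h1 := h (⌊b⌋ + 1)
    have h2 := Int.lt_floor_add_one b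
    have h3 := Int.floor_le b
    push_cast at h1
    have h4 : b - (⌊b⌋ + 1) < 0 := by linarith
    have h5 : 0 < a - (⌊b⌋ + 1) := by linarith
    have := mul_neg_of_pos_of_neg h5 h4
    linarith
  · by_contra hlt
    push Not at hlt
    have h1 := h (⌊a⌋ + 1)
    have h2 := Int.lt_floor_add_one a
    have h3 := Int.floor_le a
    push_cast at h1
    have h4 : a - (⌊a⌋ + 1) < 0 := by linarith
    have h5 : 0 < b - (⌊a⌋ + 1) := by linarith
    have := mul_neg_of_neg_of_pos h4 h5
    linarith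

end Pool.Agent.Lib.MP_eee7a8_ag.TB.PB.H69
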